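import Mathlib
import Pool.Agent.N464.NLC.Proof

set_option autoImplicit false

/-!
# No lonely colour graphs (and no pied circuit graphs) of unbounded chromatic number
-/

namespace Pool.Agent.Results.MP_2f2576_co.NoLonelyColour

/-- Property (i): every vertex meets at most two edges of each colour. (The values of `κ` at pairs
which are not edges of `X` play no role.) -/
def AtMostTwoOfEachColour {V C : Type} (X : SimpleGraph V) (κ : Sym2 V → C) : Prop :=
  ∀ (v : V) (c : C), {e | e ∈ X.edgeSet ∧ v ∈ e ∧ κ e = c}.encard ≤ 2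

/-- `X` is a no pied circuit graph: some edge colouring satisfies (i) and (ii) in every circuit,
at least two edges have the same colour. -/
def IsNoPiedCircuitGraph {V : Type} (X : SimpleGraph V) : Prop :=
  ∃ (C : Type) (κ : Sym2 V → C), AtMostTwoOfEachColour X κ ∧
    ∀ (v : V) (w : X.Walk v v), w.IsCycle → ∃ e ∈ w.edges, ∃ f ∈ w.edges, f ≠ e ∧ κ f = κ e

/-- `X` is a no lonely colour graph: some edge colouring satisfies (i) and (iii) in every circuit,
each edge has the same colour as some other edge of that circuit. -/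
def IsNoLonelyColourGraph {V : Type} (X : SimpleGraph V) : Prop :=
  ∃ (C : Type) (κ : Sym2 V → C), AtMostTwoOfEachColour X κ ∧
    ∀ (v : V) (w : X.Walk v v), w.IsCycle → ∀ e ∈ w.edges, ∃ f ∈ w.edges, f ≠ e ∧ κ f = κ e

/-- For every `m` there is a finite graph of chromatic number larger than `m` which is a no lonely
colour graph and a no pied circuit graph. -/
theorem result : ∀ m : ℕ, ∃ (V : Type) (_ : Finite V) (X : SimpleGraph V),
    IsNoLonelyColourGraph X ∧ IsNoPiedCircuitGraph X ∧ (m : ℕ∞) < X.chromaticNumber := by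
  intro m
  obtain ⟨V, hV, X, C, κ, h1, h2, h3⟩ := Pool.Agent.N464.NLC.main m
  refine ⟨V, hV, X, ⟨C, κ, h1, h2⟩, ⟨C, κ, h1, ?_⟩, h3⟩
  intro v w hw
  have hne : w.edges ≠ [] := by
    intro h
    have h4 := hw.three_le_length
    rw [← SimpleGraph.Walk.length_edges, h] at h4
    simp at h4
  obtain ⟨e, he⟩ := List.exists_mem_of_ne_nil _ hne
  exact ⟨e, he, h2 v w hw e he⟩

end Pool.Agent.Results.MP_2f2576_co.NoLonelyColour
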